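import Pool.Agent.H38.PS.Targets
import Pool.Agent.H86.RB.SMO
import Pool.Agent.H74.RB.CNTA

/-!
# Power saving for the number of admissible triples with small radical: the two counts
-/

set_option autoImplicit false

namespace Pool.Agent.H55.ABR

open Pool.Agent.H38.RB Pool.Agent.H38.PS

theorem pr_ne {x : Fin 3 → ℤ} (hx : Adm x) : pr x ≠ 0 := by
  unfold pr
  exact Int.natAbs_ne_zero.2 (mul_ne_zero (mul_ne_zero (hx.1 0) (hx.1 1)) (hx.1 2))

theorem pr_two {x : Fin 3 → ℤ} (hx : Adm x) : 2 ≤ pr x := by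
  have h := smo_ht_two hx
  have h0 : 1 ≤ (x 0).natAbs := Int.natAbs_pos.2 (hx.1 0)
  have h1 : 1 ≤ (x 1).natAbs := Int.natAbs_pos.2 (hx.1 1)
  have h2 : 1 ≤ (x 2).natAbs := Int.natAbs_pos.2 (hx.1 2)
  have h3 : pr x = (x 0).natAbs * (x 1).natAbs * (x 2).natAbs := by
    unfold pr
    rw [Int.natAbs_mul, Int.natAbs_mul]
  rw [h3]
  unfold ht at h
  rcases le_max_iff.1 h with h | h
  · nlinarith [Nat.mul_le_mul h h1, Nat.mul_le_mul (Nat.mul_le_mul h h1) h2]
  · rcases le_max_iff.1 h with h | h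
    · nlinarith [Nat.mul_le_mul h0 h, Nat.mul_le_mul (Nat.mul_le_mul h0 h) h2]
    · nlinarith [Nat.mul_le_mul h0 h1, Nat.mul_le_mul (Nat.mul_le_mul h0 h1) h]

theorem tp_self {m : ℕ} (hm : m ≠ 0) : tp m.primeFactors m = m := by
  have h := Nat.prod_factorization_pow_eq_self hm
  unfold Finsupp.prod at h
  rw [Nat.support_factorization] at h
  exact h

theorem pd_pos {S : Finset ℕ} (hS : ∀ p ∈ S, p.Prime) : 0 < pd S :=
  Finset.prod_pos fun p hp => (hS p hp).pos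

theorem log_pd {S : Finset ℕ} (hS : ∀ p ∈ S, p.Prime) :
    Real.log (pd S : ℝ) = ∑ p ∈ S, Real.log (p : ℝ) := by
  unfold pd
  rw [Nat.cast_prod, Real.log_prod]
  intro p hp
  exact Nat.cast_ne_zero.2 (hS p hp).ne_zero

theorem pd_sqf (S : Finset ℕ) (hS : ∀ p ∈ S, p.Prime) : Squarefree (pd S) := by
  unfold pd
  induction S using Finset.induction_on with
  | empty => simp
  | insert a S ha ih =>
    have h1 : ∀ p ∈ S, p.Prime := fun p hp => hS p (Finset.mem_insert_of_mem hp)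
    have h2 : a.Prime := hS a (Finset.mem_insert_self _ _)
    rw [Finset.prod_insert ha, Nat.squarefree_mul_iff]
    refine ⟨Nat.Coprime.prod_right fun p hp => (Nat.coprime_primes h2 (h1 p hp)).2 ?_,
      h2.prime.squarefree, ih h1⟩
    rintro rfl
    exact ha hp

theorem pd_two {x : Fin 3 → ℤ} (hx : Adm x) : 2 ≤ pd (pr x).primeFactors := by
  obtain ⟨p, hp⟩ := Nat.exists_prime_and_dvd (show pr x ≠ 1 by have := pr_two hx; omega)
  have hmem : p ∈ (pr x).primeFactors := Nat.mem_primeFactors.2 ⟨hp.1, hp.2, pr_ne hx⟩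
  have h1 : p ∣ pd (pr x).primeFactors := Finset.dvd_prod_of_mem _ hmem
  exact le_trans hp.1.two_le (Nat.le_of_dvd (pd_pos fun q hq => Nat.prime_of_mem_primeFactors hq) h1)

/-- from logarithms to numbers -/
theorem pd_le {S : Finset ℕ} (hS : ∀ p ∈ S, p.Prime) {X a : ℝ} (hX : 0 < X)
    (h : ∑ p ∈ S, Real.log (p : ℝ) ≤ a * Real.log X) : (pd S : ℝ) ≤ X ^ a := by
  have h1 : (0 : ℝ) < pd S := Nat.cast_pos.2 (pd_pos hS)
  rw [← Real.log_le_log_iff h1 (Real.rpow_pos_of_pos hX a), log_pd hS, Real.log_rpow hX]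
  exact h

/-- bounds for the size of a set contained in a union of three sets -/
theorem card3 {α : Type} {S A B D : Set α} {a b d : ℝ} (h : S ⊆ A ∪ (B ∪ D))
    (hA : A.Finite ∧ (A.ncard : ℝ) ≤ a) (hB : B.Finite ∧ (B.ncard : ℝ) ≤ b)
    (hD : D.Finite ∧ (D.ncard : ℝ) ≤ d) : S.Finite ∧ (S.ncard : ℝ) ≤ a + (b + d) := by
  have hf := hA.1.union (hB.1.union hD.1)
  refine ⟨hf.subset h, ?_⟩
  have h1 := Set.ncard_le_ncard h hf
  have h2 := Set.ncard_union_le A (B ∪ D)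
  have h3 := Set.ncard_union_le B D
  have h4 : S.ncard ≤ A.ncard + (B.ncard + D.ncard) := by omega
  have h5 : (S.ncard : ℝ) ≤ A.ncard + (B.ncard + D.ncard) := by exact_mod_cast h4
  linarith [hA.2, hB.2, hD.2]

theorem le_rpow_sum {X a e f C : ℝ} (hX : 1 ≤ X) (h : a ≤ f) (hC : 0 ≤ C) (he : e = X ^ a) :
    C * e ≤ C * X ^ f := by
  subst he
  exact mul_le_mul_of_nonneg_left (Real.rpow_le_rpow_of_exponent_le hX h) hC

/-- the selection gives a member of the sets counted in LGT -/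
theorem mem_lgt (hREM : T_REM) {x : Fin 3 → ℤ} (hx : Adm x) {X a : ℝ} (hX : 0 < X)
    {D : Finset ℕ} (hD : D ⊆ (pr x).primeFactors)
    (h1 : ∑ p ∈ D, ((pr x).factorization p : ℝ) * Real.log p / Real.log (ht x) ≤ 6 / 7)
    (h2 : ∑ p ∈ (pr x).primeFactors \ D, Real.log (p : ℝ) ≤ a * Real.log X) :
    ∃ S : Finset ℕ, (∀ p ∈ S, p.Prime) ∧ (pd S : ℝ) ≤ X ^ a ∧ x ∈ Sol (6 / 7) S := by
  have hS : ∀ p ∈ (pr x).primeFactors \ D, p.Prime := fun p hp =>
    Nat.prime_of_mem_primeFactors (Finset.mem_sdiff.1 hp).1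
  exact ⟨(pr x).primeFactors \ D, hS, pd_le hS hX h2, (hREM x hx).2 D hD h1⟩

theorem y_nonneg (x : Fin 3 → ℤ) (p : ℕ) :
    0 ≤ ((pr x).factorization p : ℝ) * Real.log p / Real.log (ht x) :=
  div_nonneg (mul_nonneg (Nat.cast_nonneg _) (Real.log_natCast_nonneg p))
    (Real.log_natCast_nonneg _)

theorem pf_FA (hLP : T_LP) (hSM : T_SM) (hSEL : T_SEL) (hREM : T_REM) (hLGT : T_LGT) :
    T_FA := by
  intro c ε hc hc3 hε
  obtain ⟨C1, hC1, hL⟩ := hLGT ε hε
  obtain ⟨A, C2, hA, hC2, hP⟩ := hLP ε hε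
  obtain ⟨C3, hC3, hS⟩ := hSM A ε hA hε
  refine ⟨C1 + (C2 + C3), by linarith, fun X hX => ?_⟩
  obtain ⟨M, hM⟩ : ∃ M : ℝ, M = min (1 / 6) ((1 - 3 * c) / 4) := ⟨_, rfl⟩
  have hM0 : 0 ≤ M := by
    rw [hM]
    exact le_min (by norm_num) (by linarith)
  have hM6 : M ≤ 1 / 6 := hM ▸ min_le_left _ _
  have hM4 : M ≤ (1 - 3 * c) / 4 := hM ▸ min_le_right _ _
  have hmax : max (5 / 6) ((3 + 3 * c) / 4) = 1 - M := by
    rw [hM]
    rcases le_total (1 / 6 : ℝ) ((1 - 3 * c) / 4) with h | h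
    · rw [min_eq_left h, max_eq_left (by linarith)]
      norm_num
    · rw [min_eq_right h, max_eq_right (by linarith)]
      ring
  rw [hmax]
  by_cases hX2 : X < 2
  · have h0 : {x | Adm x ∧ (pd (pr x).primeFactors : ℝ) ≤ X ∧ (ht x : ℝ) ≤ Real.exp (X ^ c)} =
        ∅ := by
      refine Set.eq_empty_of_forall_notMem fun x hx => ?_
      have h1 : (2 : ℝ) ≤ pd (pr x).primeFactors := by exact_mod_cast pd_two hx.1
      linarith [hx.2.1]
    rw [h0]
    refine ⟨Set.finite_empty, ?_⟩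
    rw [Set.ncard_empty, Nat.cast_zero]
    have : (0 : ℝ) < X ^ (1 - M + ε) := Real.rpow_pos_of_pos (by linarith) _
    positivity
  have hX2 : 2 ≤ X := not_lt.1 hX2
  have hX0 : 0 < X := by linarith
  have hY : 1 ≤ X ^ (1 - M) := Real.one_le_rpow hX (by linarith)
  have hY' : 1 ≤ X ^ (1 - M - c) := Real.one_le_rpow hX (by linarith)
  have hZ : 1 ≤ X ^ c := Real.one_le_rpow hX hc
  have hZX : X ^ c ≤ X := by
    have := Real.rpow_le_rpow_of_exponent_le hX (show c ≤ 1 by linarith)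
    rwa [Real.rpow_one] at this
  have h1 := hL _ hY
  have h2 := hP X _ _ hX2 hY' hZ hZX
  have h3 := hS X hX
  have e1 : C1 * (X ^ (1 - M)) ^ (1 + ε) ≤ C1 * X ^ (1 - M + ε) :=
    le_rpow_sum (a := (1 - M) * (1 + ε)) hX (by nlinarith) hC1.le
      (by rw [← Real.rpow_mul hX0.le])
  have e2 : C2 * X ^ (1 - M - c) * X ^ c * X ^ ε ≤ C2 * X ^ (1 - M + ε) := by
    rw [mul_assoc, mul_assoc, ← Real.rpow_add hX0, ← Real.rpow_add hX0]
    exact mul_le_mul_of_nonneg_left (Real.rpow_le_rpow_of_exponent_le hX (by linarith)) hC2.le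
  have e3 : C3 * X ^ (2 / 3 + ε) ≤ C3 * X ^ (1 - M + ε) :=
    mul_le_mul_of_nonneg_left (Real.rpow_le_rpow_of_exponent_le hX (by linarith)) hC3.le
  have key := card3 (S := {x | Adm x ∧ (pd (pr x).primeFactors : ℝ) ≤ X ∧
      (ht x : ℝ) ≤ Real.exp (X ^ c)}) ?_ ⟨h1.1, h1.2.trans e1⟩ ⟨h2.1, h2.2.trans e2⟩
      ⟨h3.1, h3.2.trans e3⟩
  · refine ⟨key.1, key.2.trans (le_of_eq ?_)⟩
    ring
  · rintro x ⟨hx, hpd, hht⟩
    have hTp : ∀ p ∈ (pr x).primeFactors, p.Prime := fun p hp => Nat.prime_of_mem_primeFactors hp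
    have hpd0 : (0 : ℝ) < pd (pr x).primeFactors := Nat.cast_pos.2 (pd_pos hTp)
    have hw : ∑ p ∈ (pr x).primeFactors, Real.log (p : ℝ) ≤ Real.log X := by
      rw [← log_pd hTp]
      exact Real.log_le_log hpd0 hpd
    rcases hSEL (pr x).primeFactors
      (fun p => ((pr x).factorization p : ℝ) * Real.log p / Real.log (ht x))
      (fun p => Real.log (p : ℝ)) c M (Real.log X) (fun p _ => y_nonneg x p)
      (fun p _ => Real.log_natCast_nonneg p) (hREM x hx).1 hw hc hM0 hM6 (by linarith) with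
      ⟨D, hD, hD1, hD2⟩ | ⟨p, hp, hp2⟩
    · exact Or.inl (mem_lgt hREM hx hX0 hD hD1 hD2)
    · refine Or.inr ?_
      have hht0 : (0 : ℝ) < ht x := by
        have := smo_ht_two hx
        exact_mod_cast (by omega : 0 < ht x)
      by_cases hh : A * Real.log X ≤ Real.log (ht x)
      · refine Or.inl ⟨hx, hpd, hh, ?_, p, hp, ?_⟩
        · rw [← Real.log_exp (X ^ c)]
          exact Real.log_le_log hht0 hht
        · have h5 : (pd ((pr x).primeFactors.erase p) : ℝ) ≤ X ^ (1 - M - c) :=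
            pd_le (fun q hq => hTp q (Finset.mem_of_mem_erase hq)) hX0 hp2
          have h6 : pd (pr x).primeFactors = p * pd ((pr x).primeFactors.erase p) := by
            exact (Finset.mul_prod_erase (pr x).primeFactors (fun q => q) hp).symm
          rw [h6, Nat.cast_mul, mul_comm (p : ℝ)]
          exact mul_le_mul_of_nonneg_right h5 (Nat.cast_nonneg _)
      · exact Or.inr ⟨hx, hpd, (not_le.1 hh).le⟩

theorem card1 {α : Type} {S A : Set α} {a : ℝ} (h : S ⊆ A)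
    (hA : A.Finite ∧ (A.ncard : ℝ) ≤ a) : S.Finite ∧ (S.ncard : ℝ) ≤ a :=
  ⟨hA.1.subset h, le_trans (Nat.cast_le.2 (Set.ncard_le_ncard h hA.1)) hA.2⟩

theorem pf_FB (hSEL2 : T_SEL2) (hREM : T_REM) (hLGT : T_LGT) (hCNTB : T_CNTB) : T_FB := by
  intro θ ε hθ hθ3 hε
  rcases le_total (2 / 3 + θ) (max (5 / 6) (3 * θ)) with hmin | hmin
  · rw [min_eq_left hmin]
    obtain ⟨C, hC, h⟩ := hCNTB 0 ε le_rfl one_pos hε
    refine ⟨C * 2, by linarith, fun X hX => ?_⟩
    have hX0 : 0 < X := by linarith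
    have hXθ : 1 ≤ X ^ θ := Real.one_le_rpow hX hθ
    have hy : max 2 (X ^ θ) ≤ 2 * X ^ θ := max_le (by linarith) (by linarith)
    have h1 := h X (max 2 (X ^ θ)) hX (le_max_left _ _)
    have e1 : C * max 2 (X ^ θ) * X ^ ((2 + (0 : ℝ)) / 3 + ε) ≤
        C * 2 * X ^ (2 / 3 + θ + ε) := by
      have e2 : X ^ θ * X ^ ((2 + (0 : ℝ)) / 3 + ε) = X ^ (2 / 3 + θ + ε) := by
        rw [← Real.rpow_add hX0]
        ring_nf
      rw [← e2]
      have h3 : 0 ≤ X ^ ((2 + (0 : ℝ)) / 3 + ε) := Real.rpow_nonneg hX0.le _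
      calc C * max 2 (X ^ θ) * X ^ ((2 + (0 : ℝ)) / 3 + ε)
          ≤ C * (2 * X ^ θ) * X ^ ((2 + (0 : ℝ)) / 3 + ε) :=
            mul_le_mul_of_nonneg_right (mul_le_mul_of_nonneg_left hy hC.le) h3
        _ = _ := by ring
    refine card1 ?_ ⟨h1.1, h1.2.trans e1⟩
    rintro x ⟨hx, hpd, hsm⟩
    have hTp : ∀ p ∈ (pr x).primeFactors, p.Prime := fun p hp => Nat.prime_of_mem_primeFactors hp
    have hpf : (pd (pr x).primeFactors).primeFactors = (pr x).primeFactors :=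
      Nat.primeFactors_prod hTp
    refine ⟨pd (pr x).primeFactors, pd_sqf _ hTp, hpd, ?_, ?_⟩
    · rw [hpf]
      exact fun p hp => (hsm p hp).trans (le_max_right _ _)
    · rw [hpf]
      refine ⟨hx, ?_⟩
      rw [tp_self (pr_ne hx), Real.rpow_zero, one_mul]
  · rw [min_eq_right hmin]
    obtain ⟨C, hC, h⟩ := hLGT ε hε
    refine ⟨C, hC, fun X hX => ?_⟩
    have hX0 : 0 < X := by linarith
    obtain ⟨M, hM⟩ : ∃ M : ℝ, M = min (1 / 6) (1 - 3 * θ) := ⟨_, rfl⟩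
    have hM0 : 0 ≤ M := by
      rw [hM]
      exact le_min (by norm_num) (by linarith)
    have hM6 : M ≤ 1 / 6 := hM ▸ min_le_left _ _
    have hM4 : M ≤ 1 - 3 * θ := hM ▸ min_le_right _ _
    have hmax : max (5 / 6) (3 * θ) = 1 - M := by
      rw [hM]
      rcases le_total (1 / 6 : ℝ) (1 - 3 * θ) with h | h
      · rw [min_eq_left h, max_eq_left (by linarith)]
        norm_num
      · rw [min_eq_right h, max_eq_right (by linarith)]
        ring
    rw [hmax]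
    have h1 := h _ (Real.one_le_rpow hX (show 0 ≤ 1 - M by linarith))
    have e1 : C * (X ^ (1 - M)) ^ (1 + ε) ≤ C * X ^ (1 - M + ε) :=
      le_rpow_sum (a := (1 - M) * (1 + ε)) hX (by nlinarith) hC.le
        (by rw [← Real.rpow_mul hX0.le])
    refine card1 ?_ ⟨h1.1, h1.2.trans e1⟩
    rintro x ⟨hx, hpd, hsm⟩
    have hTp : ∀ p ∈ (pr x).primeFactors, p.Prime := fun p hp => Nat.prime_of_mem_primeFactors hp
    have hpd0 : (0 : ℝ) < pd (pr x).primeFactors := Nat.cast_pos.2 (pd_pos hTp)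
    have hw : ∑ p ∈ (pr x).primeFactors, Real.log (p : ℝ) ≤ Real.log X := by
      rw [← log_pd hTp]
      exact Real.log_le_log hpd0 hpd
    obtain ⟨D, hD, hD1, hD2⟩ := hSEL2 (pr x).primeFactors
      (fun p => ((pr x).factorization p : ℝ) * Real.log p / Real.log (ht x))
      (fun p => Real.log (p : ℝ)) θ M (Real.log X) (fun p _ => y_nonneg x p)
      (fun p _ => Real.log_natCast_nonneg p) (hREM x hx).1 hw hθ hM0 hM6 (by linarith)
      (fun p hp => by
        have h5 := hsm p hp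
        have h6 : (0 : ℝ) < p := Nat.cast_pos.2 (hTp p hp).pos
        rw [← Real.log_rpow hX0]
        exact Real.log_le_log h6 h5)
    exact mem_lgt hREM hx hX0 hD hD1 hD2

end Pool.Agent.H55.ABR
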