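import Pool.Agent.H38.PS.Targets2
import Pool.Agent.H55.ABR.FIN

/-!
# The sharp exponent: the count for heights up to `exp (X ^ c)`
-/

set_option autoImplicit false

namespace Pool.Agent.H55.ABR

open Pool.Agent.H38.RB Pool.Agent.H38.PS

theorem pf_FA2 (hLP2 : T_LP2) (hSM : T_SM) (hSEL3 : T_SEL3) (hLGT2 : T_LGT2)
    (hREM2 : T_REM2) : T_FA2 := by
  intro c ε hc hc1 hε
  obtain ⟨e, he0, he1, he4⟩ : ∃ e : ℝ, 0 < e ∧ e ≤ 1 ∧ 4 * e ≤ ε :=
    ⟨min (ε / 4) 1, lt_min (by linarith) one_pos, min_le_right _ _, by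
      have := min_le_left (ε / 4) 1
      linarith⟩
  obtain ⟨δ, K, hδ, hδ1, hK, hsel⟩ := hSEL3 e he0
  obtain ⟨A, C2, hA, hC2, hP⟩ := hLP2 e δ he0 hδ
  obtain ⟨C1, hC1, hL⟩ := hLGT2 δ e hδ he0
  have hl2 : 0 < Real.log 2 := Real.log_pos (by norm_num)
  obtain ⟨A', hAA, hAK⟩ : ∃ A' : ℝ, A ≤ A' ∧ K ≤ A' * Real.log 2 :=
    ⟨max A (K / Real.log 2), le_max_left _ _, by
      have := mul_le_mul_of_nonneg_right (le_max_right A (K / Real.log 2)) hl2.le
      rwa [div_mul_cancel₀ _ hl2.ne'] at this⟩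
  obtain ⟨C3, hC3, hS⟩ := hSM A' e (hA.trans hAA) he0
  refine ⟨C1 + (C2 + C3), by linarith, fun X hX => ?_⟩
  by_cases hX2 : X < 2
  · have h0 : {x | Adm x ∧ (pd (pr x).primeFactors : ℝ) ≤ X ∧ (ht x : ℝ) ≤ Real.exp (X ^ c)} =
        ∅ := by
      refine Set.eq_empty_of_forall_notMem fun x hx => ?_
      have h1 : (2 : ℝ) ≤ pd (pr x).primeFactors := by exact_mod_cast pd_two hx.1
      linarith [hx.2.1]
    rw [h0]
    refine ⟨Set.finite_empty, ?_⟩
    rw [Set.ncard_empty, Nat.cast_zero]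
    have : (0 : ℝ) < X ^ (2 / 3 + c + ε) := Real.rpow_pos_of_pos (by linarith) _
    positivity
  have hX2 : 2 ≤ X := not_lt.1 hX2
  have hX0 : 0 < X := by linarith
  have hlX : Real.log 2 ≤ Real.log X := Real.log_le_log (by norm_num) hX2
  have hY : 1 ≤ X ^ (2 / 3 + e) := Real.one_le_rpow hX (by linarith)
  have hZ : 1 ≤ X ^ c := Real.one_le_rpow hX hc
  have hZX : X ^ c ≤ X := by
    have := Real.rpow_le_rpow_of_exponent_le hX hc1
    rwa [Real.rpow_one] at this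
  have h1 := hL _ hY
  have h2 := hP X _ _ hX2 hY hZ hZX
  have h3 := hS X hX
  have e1 : C1 * (X ^ (2 / 3 + e)) ^ (1 + e) ≤ C1 * X ^ (2 / 3 + c + ε) :=
    le_rpow_sum (a := (2 / 3 + e) * (1 + e)) hX (by nlinarith) hC1.le
      (by rw [← Real.rpow_mul hX0.le])
  have e2 : C2 * X ^ (2 / 3 + e) * X ^ c * X ^ e ≤ C2 * X ^ (2 / 3 + c + ε) := by
    rw [mul_assoc, mul_assoc, ← Real.rpow_add hX0, ← Real.rpow_add hX0]
    exact mul_le_mul_of_nonneg_left (Real.rpow_le_rpow_of_exponent_le hX (by linarith)) hC2.le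
  have e3 : C3 * X ^ (2 / 3 + e) ≤ C3 * X ^ (2 / 3 + c + ε) :=
    mul_le_mul_of_nonneg_left (Real.rpow_le_rpow_of_exponent_le hX (by linarith)) hC3.le
  have key := card3 (S := {x | Adm x ∧ (pd (pr x).primeFactors : ℝ) ≤ X ∧
      (ht x : ℝ) ≤ Real.exp (X ^ c)}) ?_ ⟨h1.1, h1.2.trans e1⟩ ⟨h2.1, h2.2.trans e2⟩
      ⟨h3.1, h3.2.trans e3⟩
  · refine ⟨key.1, key.2.trans (le_of_eq ?_)⟩
    ring
  · rintro x ⟨hx, hpd, hht⟩
    have hTp : ∀ p ∈ (pr x).primeFactors, p.Prime := fun p hp => Nat.prime_of_mem_primeFactors hp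
    have hpd0 : (0 : ℝ) < pd (pr x).primeFactors := Nat.cast_pos.2 (pd_pos hTp)
    have hlog : Real.log (pd (pr x).primeFactors) ≤ Real.log X := Real.log_le_log hpd0 hpd
    have hht0 : (0 : ℝ) < ht x := by
      have := smo_ht_two hx
      exact_mod_cast (by omega : 0 < ht x)
    by_cases hh : Real.log (ht x) ≤ A' * Real.log X
    · exact Or.inr (Or.inr ⟨hx, hpd, hh⟩)
    have hh := (not_le.1 hh).le
    have hA'0 : 0 ≤ A' := by linarith
    have hKh : K ≤ Real.log (ht x) :=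
      hAK.trans ((mul_le_mul_of_nonneg_left hlX hA'0).trans hh)
    have hAh : A * Real.log X ≤ Real.log (ht x) :=
      (mul_le_mul_of_nonneg_right hAA (hl2.le.trans hlX)).trans hh
    have hlog2 : (2 / 3 + e) * Real.log (pd (pr x).primeFactors) ≤
        (2 / 3 + e) * Real.log X := mul_le_mul_of_nonneg_left hlog (by linarith)
    rcases hsel x hx hKh with ⟨E, hE, hE1, hE2⟩ | ⟨a, b, p, E, hab, hp, hE, hE1, hE2⟩
    · refine Or.inl ⟨(pr x).primeFactors \ E, fun p hp => hTp p (Finset.mem_sdiff.1 hp).1, ?_,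
        hREM2 δ x hx E hE hE1⟩
      refine pd_le (fun p hp => hTp p (Finset.mem_sdiff.1 hp).1) hX0 ?_
      rw [← log_pd fun p hp => hTp p (Finset.mem_sdiff.1 hp).1]
      exact hE2.trans hlog2
    · refine Or.inr (Or.inl ⟨⟨hx, hpd, a, b, p, E, hab, hp, hE, hE1, ?_⟩, hAh, ?_⟩)
      · have hp0 : (0 : ℝ) < p := Nat.cast_pos.2 (Nat.prime_of_mem_primeFactors hp).pos
        have hE0 : (0 : ℝ) < pd E :=
          Nat.cast_pos.2 (pd_pos fun q hq => Nat.prime_of_mem_primeFactors (hE hq))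
        have hY0 : (0 : ℝ) < X ^ (2 / 3 + e) := Real.rpow_pos_of_pos hX0 _
        rw [← Real.log_le_log_iff hpd0 (mul_pos (mul_pos hY0 hp0) hE0),
          Real.log_mul (mul_pos hY0 hp0).ne' hE0.ne', Real.log_mul hY0.ne' hp0.ne',
          Real.log_rpow hX0]
        linarith
      · rw [← Real.log_exp (X ^ c)]
        exact Real.log_le_log hht0 hht

end Pool.Agent.H55.ABR
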